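import Pool.Agent.Helper83.CK.St

set_option autoImplicit false

namespace Pool.Agent.Helper60.CK

open Pool.Agent.Helper83.CK Cardinal

universe u

theorem mS : StR.{u} → StS.{u} := by
  intro hR α γ h0 h1
  obtain ⟨r, hr⟩ := hR α
  have hne : Nonempty γ := by
    rw [← Cardinal.mk_ne_zero_iff]
    intro h
    rw [h] at h0
    exact absurd h0 (not_le.2 Cardinal.aleph0_pos)
  obtain ⟨e⟩ : Nonempty (γ ↪ (ℕ → Bool)) := by
    rw [← Cardinal.lift_mk_le']
    have : #(ℕ → Bool) = 𝔠 := by simp
    rw [this, Cardinal.lift_continuum]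
    simpa using h1
  refine ⟨fun s => Function.invFun e (r s), ?_⟩
  intro X hX
  have hinf : X.Infinite := by
    rw [← Set.infinite_coe_iff, Cardinal.infinite_iff, hX]
    exact h0
  obtain ⟨w, hwX, hwc, hwi⟩ : ∃ w ⊆ X, w.Countable ∧ w.Infinite := by
    have := hinf.to_subtype
    refine ⟨Set.range (fun n => ((Infinite.natEmbedding X n : X) : α)), ?_, Set.countable_range _, ?_⟩
    · rintro _ ⟨n, rfl⟩
      exact (Infinite.natEmbedding X n).2
    · exact Set.infinite_range_of_injective
        (Subtype.val_injective.comp (Infinite.natEmbedding X).injective)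
  apply Set.eq_univ_of_forall
  intro c
  obtain ⟨v, hvw, hvi, hv⟩ := hr w hwc hwi (e c)
  refine ⟨v, ⟨hvw.trans hwX, ?_⟩, ?_⟩
  · have := (hwc.mono hvw).to_subtype
    have := hvi.to_subtype
    exact Cardinal.mk_eq_aleph0 v
  · simp only [hv]
    exact Function.leftInverse_invFun e.injective c

end Pool.Agent.Helper60.CK
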